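import Pool.Agent.Y834.EA.Main

/-!
# The L-series of all elliptic curves of small height at almost all points of the edge

Meromorphic continuation of `L(E, s)` is not known for elliptic curves over general number fields.
Here the boundary values of `L(E, s)` on the edge `Re s = 3/2` of absolute convergence are treated
without any continuation, uniformly in the curve and in the number field.

For every degree `d` and all `ε > 0`, `B ≥ 0` there are `A` and `δ > 0` such that for all large `T`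
there is ONE set `X` of measure at most `T ^ ε` with the following property.  For all
`|τ| ≤ T` outside `X` and for ALL elliptic curves of height at most `T ^ δ` over ALL number fields
of degree at most `d` and height at most `T ^ δ`, the boundary value `l` of `L(E, s)` at
`3/2 + i τ` exists and is given, with a relative error `(log T) ^ (-B)`, by the Euler factors at
the places of norm less than `(log T) ^ A`.  In particular `|l|` lies between
`c (log log T) ^ (-2n)` and `C (log log T) ^ (2n)`, `n` the degree of the field.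
-/

set_option autoImplicit false

namespace Pool.Agent.Results.MP_0d9be2_nt.EdgeApproximation

open NumberField IsDedekindDomain Filter Topology MeasureTheory Polynomial

/-- `W v` is, for every finite place `v`, an integral model of `E` with discriminant minimal at
`v`. -/
def MinimalModels {K : Type} [Field K] [NumberField K] (E : WeierstrassCurve K)
    (W : HeightOneSpectrum (𝓞 K) → WeierstrassCurve (𝓞 K)) : Prop :=
  ∀ v : HeightOneSpectrum (𝓞 K),
    (∃ C : WeierstrassCurve.VariableChange K, C • (W v).map (algebraMap (𝓞 K) K) = E) ∧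
    ∀ W' : WeierstrassCurve (𝓞 K),
      (∃ C : WeierstrassCurve.VariableChange K, C • W'.map (algebraMap (𝓞 K) K) = E) →
      ∀ n : ℕ, (W v).Δ ∈ v.asIdeal ^ n → W'.Δ ∈ v.asIdeal ^ n

open Classical in
/-- The Euler factor at `v`, `(1 - a_v Nv^{-s} + Nv^{1-2s})⁻¹` if the reduction at `v` is good and
`(1 - a_v Nv^{-s})⁻¹` if it is bad, where `a_v` is `Nv` minus the number of affine points of the
reduction of `W v`. -/
noncomputable def localFactor {K : Type} [Field K] [NumberField K]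
    (W : HeightOneSpectrum (𝓞 K) → WeierstrassCurve (𝓞 K)) (v : HeightOneSpectrum (𝓞 K))
    (s : ℂ) : ℂ :=
  (1 - ((Ideal.absNorm v.asIdeal : ℂ)
        - (Nat.card {xy : (𝓞 K ⧸ v.asIdeal) × (𝓞 K ⧸ v.asIdeal) //
            ((W v).map (Ideal.Quotient.mk v.asIdeal)).toAffine.Equation xy.1 xy.2} : ℂ))
        * (Ideal.absNorm v.asIdeal : ℂ) ^ (-s)
    + (if (W v).Δ ∈ v.asIdeal then 0 else (Ideal.absNorm v.asIdeal : ℂ))
        * (Ideal.absNorm v.asIdeal : ℂ) ^ (-2 * s))⁻¹

/-- The `L`-series, as the Euler product over all finite places. -/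
noncomputable def LSeries {K : Type} [Field K] [NumberField K]
    (W : HeightOneSpectrum (𝓞 K) → WeierstrassCurve (𝓞 K)) (s : ℂ) : ℂ :=
  ∏' v : HeightOneSpectrum (𝓞 K), localFactor W v s

/-- The Euler product over the finite places of norm less than `y`. -/
noncomputable def shortProduct {K : Type} [Field K] [NumberField K]
    (W : HeightOneSpectrum (𝓞 K) → WeierstrassCurve (𝓞 K)) (y : ℝ) (s : ℂ) : ℂ :=
  ∏ᶠ v ∈ {v : HeightOneSpectrum (𝓞 K) | (Ideal.absNorm v.asIdeal : ℝ) < y}, localFactor W v s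

/-- The point `3/2 + iτ` of the edge of absolute convergence. -/
noncomputable def edgePoint (τ : ℝ) : ℂ := ((3 / 2 : ℝ) : ℂ) + (τ : ℂ) * Complex.I

/-- The angle `|s - s_τ| ≤ C (Re s - 3/2)` at `s_τ = 3/2 + iτ` in the half-plane `Re s > 3/2`. -/
def angle (τ C : ℝ) : Set ℂ :=
  {s : ℂ | (3 / 2 : ℝ) < s.re ∧ ‖s - edgePoint τ‖ ≤ C * (s.re - (3 / 2 : ℝ))}

/-- The elliptic curve `y² = x³ + a(θ) x + b(θ)`. -/
noncomputable def curve {K : Type} [Field K] [NumberField K] (θ : 𝓞 K) (a b : ℤ[X]) :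
    WeierstrassCurve K where
  a₁ := 0
  a₂ := 0
  a₃ := 0
  a₄ := ((aeval θ a : 𝓞 K) : K)
  a₆ := ((aeval θ b : 𝓞 K) : K)

/-- All coefficients of `f` are at most `H` in absolute value. -/
def HeightLE (H : ℝ) (f : ℤ[X]) : Prop := ∀ i, |(f.coeff i : ℝ)| ≤ H

/-- **Uniform approximation of the boundary values by short Euler products.** -/
theorem result (d : ℕ) (ε B : ℝ) (hε : 0 < ε) (hB : 0 ≤ B) :
    ∃ A δ C T₀ : ℝ, 1 ≤ A ∧ 0 < δ ∧ 0 < C ∧ 3 ≤ T₀ ∧ ∀ T : ℝ, T₀ ≤ T → ∃ X : Set ℝ,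
      volume X ≤ ENNReal.ofReal (T ^ ε) ∧
      ∀ (K : Type) [Field K] [NumberField K], Module.finrank ℚ K ≤ d →
        ∀ θ : 𝓞 K, IntermediateField.adjoin ℚ {(θ : K)} = ⊤ → HeightLE (T ^ δ) (minpoly ℤ θ) →
        ∀ a b : ℤ[X], a.natDegree ≤ d → HeightLE (T ^ δ) a → b.natDegree ≤ d →
          HeightLE (T ^ δ) b → 4 * aeval θ a ^ 3 + 27 * aeval θ b ^ 2 ≠ 0 →
        ∀ W : HeightOneSpectrum (𝓞 K) → WeierstrassCurve (𝓞 K), MinimalModels (curve θ a b) W →
        ∀ τ : ℝ, |τ| ≤ T → τ ∉ X → ∃ l : ℂ,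
          Tendsto (fun x : ℕ => shortProduct W x (edgePoint τ)) atTop (𝓝 l) ∧
          (∀ C' : ℝ, Tendsto (LSeries W) (𝓝[angle τ C'] (edgePoint τ)) (𝓝 l)) ∧
          ‖l - shortProduct W (Real.log T ^ A) (edgePoint τ)‖ ≤
            Real.log T ^ (-B) * ‖shortProduct W (Real.log T ^ A) (edgePoint τ)‖ ∧
          1 / (C * Real.log (Real.log T) ^ (2 * Module.finrank ℚ K)) ≤ ‖l‖ ∧
          ‖l‖ ≤ C * Real.log (Real.log T) ^ (2 * Module.finrank ℚ K) := by
  obtain ⟨A, δ, C, hA, hδ, hC, hev⟩ := Pool.Agent.Y834.EA.main2 d ε B hε hB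
  obtain ⟨T₀, hT₀⟩ := eventually_atTop.1 hev
  refine ⟨A, δ, C, max T₀ 3, hA, hδ, hC, le_max_right _ _, ?_⟩
  intro T hT
  obtain ⟨X, hX, hmain⟩ := hT₀ T ((le_max_left _ _).trans hT)
  refine ⟨X, hX, ?_⟩
  intro K _ _ hdeg θ hgen hθ a b hda ha hdb hb hdisc W hW τ hτ hτX
  have hlf : ∀ v s, localFactor W v s = Pool.Agent.W350.EdgeEC.lf W v s := by
    intro v s
    have h1 : (Nat.card {xy : (𝓞 K ⧸ v.asIdeal) × (𝓞 K ⧸ v.asIdeal) //
            ((W v).map (Ideal.Quotient.mk v.asIdeal)).toAffine.Equation xy.1 xy.2}) =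
        Pool.Agent.H341R2.EC.aff (Pool.Agent.H341R2.EC.red v (W v)) := by
      unfold Pool.Agent.H341R2.EC.aff Pool.Agent.H341R2.EC.red
      refine Nat.card_congr (Equiv.subtypeEquivRight fun q => ?_)
      exact WeierstrassCurve.Affine.equation_iff ..
    unfold localFactor Pool.Agent.W350.EdgeEC.lf Pool.Agent.H341R2.EC.trc
    rw [h1]
    unfold Pool.Agent.H921R2.TatePole.nm
    push_cast
    rfl
  have hsp : ∀ (y : ℝ) (s : ℂ), shortProduct W y s = Pool.Agent.Y834.EA.Py W y s := by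
    intro y s
    unfold shortProduct Pool.Agent.Y834.EA.Py
    have hset : {v : HeightOneSpectrum (𝓞 K) | (Ideal.absNorm v.asIdeal : ℝ) < y} =
        ((Pool.Agent.W350.EdgeV.FV Pool.Agent.H921R2.TatePole.nm
          Pool.Agent.W350.EdgeNF.hfin ⌈y⌉₊ : Finset (HeightOneSpectrum (𝓞 K))) :
          Set (HeightOneSpectrum (𝓞 K))) := by
      ext v
      rw [Finset.mem_coe, Pool.Agent.W350.EdgeV.mem_FV, Nat.lt_ceil]
      rfl
    rw [hset, finprod_mem_coe_finset]
    exact Finset.prod_congr rfl fun v _ => hlf v s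
  obtain ⟨l, h1, h2, h3, h4, h5, h6⟩ := hmain K θ a b
    ⟨hgen, hdeg, hda, hdb, hθ, ha, hb, hdisc⟩ W
    (fun v => Pool.Agent.W350.EdgeEC.isMinAt_twist (hW v)) τ hτ hτX
  refine ⟨l, h2.congr fun x => ?_, fun C' => (h3 C').congr fun s => ?_, ?_, h5, h6⟩
  · rw [hsp]
    unfold Pool.Agent.Y834.EA.Py
    rw [Nat.ceil_natCast]
    rfl
  · exact tprod_congr fun v => (hlf v s).symm
  · rw [hsp]
    exact h4

end Pool.Agent.Results.MP_0d9be2_nt.EdgeApproximation
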