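import Pool.Agent.Y774.FP.Main

/-!
# Boundary moduli in bounded windows with finite precision determine the Euler factors, uniformly for
all elliptic curves over all number fields of bounded degree

On the edge `Re s = 3/2` of absolute convergence the `L`-series of an elliptic curve `E` over a number
field `K` has boundary values at almost all points; the analytic behaviour of `L(E, s)` there is the
first unknown part of the Hasse-Weil conjecture.  The theorem compares the moduli of the boundary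
values of several curves (over different fields of degree at most `n`).  All constants depend only on
`n`, not on the curves, their conductors, the fields, or the position of the window on the edge.
-/

set_option autoImplicit false

namespace Pool.Agent.Results.MP_0d9be2_nt.FinitePrecision

open NumberField IsDedekindDomain Filter Topology MeasureTheory

/-- `W v` is, for every finite place `v`, an integral model of `E` with discriminant minimal at
`v`. -/
def MinimalModels {K : Type} [Field K] [NumberField K] (E : WeierstrassCurve K)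
    (W : HeightOneSpectrum (𝓞 K) → WeierstrassCurve (𝓞 K)) : Prop :=
  ∀ v : HeightOneSpectrum (𝓞 K),
    (∃ C : WeierstrassCurve.VariableChange K, C • (W v).map (algebraMap (𝓞 K) K) = E) ∧
    ∀ W' : WeierstrassCurve (𝓞 K),
      (∃ C : WeierstrassCurve.VariableChange K, C • W'.map (algebraMap (𝓞 K) K) = E) →
      ∀ n : ℕ, (W v).Δ ∈ v.asIdeal ^ n → W'.Δ ∈ v.asIdeal ^ n

section
variable {K : Type} [Field K] [NumberField K]

open Classical in
/-- The Euler factor at `v`, `(1 - a_v Nv^{-s} + Nv^{1-2s})⁻¹` if the reduction at `v` is good and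
`(1 - a_v Nv^{-s})⁻¹` if it is bad, where `a_v` is `Nv` minus the number of affine points of the
reduction of `W v`. -/
noncomputable def localFactor (W : HeightOneSpectrum (𝓞 K) → WeierstrassCurve (𝓞 K))
    (v : HeightOneSpectrum (𝓞 K)) (s : ℂ) : ℂ :=
  (1 - ((Ideal.absNorm v.asIdeal : ℂ)
        - (Nat.card {xy : (𝓞 K ⧸ v.asIdeal) × (𝓞 K ⧸ v.asIdeal) //
            ((W v).map (Ideal.Quotient.mk v.asIdeal)).toAffine.Equation xy.1 xy.2} : ℂ))
        * (Ideal.absNorm v.asIdeal : ℂ) ^ (-s)
    + (if (W v).Δ ∈ v.asIdeal then 0 else (Ideal.absNorm v.asIdeal : ℂ))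
        * (Ideal.absNorm v.asIdeal : ℂ) ^ (-2 * s))⁻¹

/-- The `L`-series, as the Euler product over all finite places. -/
noncomputable def LSeries (W : HeightOneSpectrum (𝓞 K) → WeierstrassCurve (𝓞 K)) (s : ℂ) : ℂ :=
  ∏' v : HeightOneSpectrum (𝓞 K), localFactor W v s

/-- The product of the Euler factors at the places above the prime number `p`. -/
noncomputable def factor (W : HeightOneSpectrum (𝓞 K) → WeierstrassCurve (𝓞 K)) (p : ℕ) (s : ℂ) :
    ℂ :=
  ∏ᶠ v ∈ {v : HeightOneSpectrum (𝓞 K) | (p : 𝓞 K) ∈ v.asIdeal}, localFactor W v s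

/-- The modulus `|L(E, 3/2 + iτ)|` of the boundary value. -/
noncomputable def edgeAbs (W : HeightOneSpectrum (𝓞 K) → WeierstrassCurve (𝓞 K)) (τ : ℝ) : ℝ :=
  limUnder (𝓝[>] (0 : ℝ)) fun σ : ℝ => ‖LSeries W (3 / 2 + σ + τ * Complex.I)‖

end

/-- An elliptic curve `E` over a number field `K` of degree at most `n`, with minimal models. -/
structure Curve (n : ℕ) where
  /-- the field -/
  K : Type
  [field : Field K]
  [numberField : NumberField K]
  degree : Module.finrank ℚ K ≤ n
  /-- the curve -/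
  E : WeierstrassCurve K
  elliptic : E.IsElliptic
  /-- the minimal models -/
  W : HeightOneSpectrum (𝓞 K) → WeierstrassCurve (𝓞 K)
  minimal : MinimalModels E W

attribute [instance] Curve.field Curve.numberField

variable {n : ℕ}

/-- The linear form `∑_k m_k log |L(E_k, 3/2 + iτ)|`. -/
noncomputable def form {κ : Type} [Fintype κ] (c : κ → Curve n) (m : κ → ℝ) (τ : ℝ) : ℝ :=
  ∑ k, m k * Real.log (edgeAbs (c k).W τ)

/-- The relation `∏_k |L_p(E_k, s)|^{m_k} = 1`, `Re s ≥ 3/2`, between the Euler factors at `p`. -/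
def Relation {κ : Type} [Fintype κ] (c : κ → Curve n) (m : κ → ℝ) (p : ℕ) : Prop :=
  ∀ s : ℂ, 3 / 2 ≤ s.re → ∏ k, ‖factor (c k).W p s‖ ^ m k = 1

/-- There are one interval of length `T ≥ T₀` and one real number `y` such that `|f - y| < ε` on a
part of the interval of measure at least `δ T`. -/
def Concentrated (f : ℝ → ℝ) (δ ε T₀ : ℝ) : Prop :=
  ∃ a T y : ℝ, T₀ ≤ T ∧
    ENNReal.ofReal (δ * T) ≤ volume {τ : ℝ | τ ∈ Set.Ioc a (a + T) ∧ |f τ - y| < ε}

/-- **Finite precision and bounded windows.**  Let `n` be a natural number.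

* For every elliptic curve over a number field of degree `≤ n`, the radial limit
`|L(E, 3/2 + iτ)|` exists and is positive for almost all real `τ`.
* Let `m_k` be real numbers.  For all `x` and `δ > 0` there are `ε > 0` and `T₀` such that for all
elliptic curves `E_k` over number fields of degree `≤ n`: if `∑_k m_k log |L(E_k, 3/2 + iτ)|` is
constant up to an error `ε` on a part of measure at least `δ T` of one interval of length `T ≥ T₀`,
then `∏_k |L_p(E_k, s)|^{m_k} = 1` (`Re s ≥ 3/2`) for the Euler factors at all primes `p < x`.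
* In particular, for all `x` and `δ > 0` there are `ε > 0` and `T₀` such that any two elliptic curves
`E`, `E'` over number fields of degree `≤ n`, for which the quotient
`|L(E, 3/2 + iτ)| / |L(E', 3/2 + iτ)|` is constant up to factors `e^{±ε}` on a part of measure
`≥ δ T` of one interval of length `T ≥ T₀`, have the same Euler factors at all `p < x`. -/
theorem result (n : ℕ) :
    (∀ c : Curve n, ∀ᵐ τ : ℝ, 0 < edgeAbs c.W τ ∧
      Tendsto (fun σ : ℝ => ‖LSeries c.W (3 / 2 + σ + τ * Complex.I)‖) (𝓝[>] 0)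
        (𝓝 (edgeAbs c.W τ))) ∧
    (∀ (κ : Type) [Fintype κ] (m : κ → ℝ) (x : ℕ) (δ : ℝ), 0 < δ →
      ∃ ε : ℝ, 0 < ε ∧ ∃ T₀ : ℝ, 0 < T₀ ∧ ∀ c : κ → Curve n,
        Concentrated (form c m) δ ε T₀ → ∀ p : ℕ, p.Prime → p < x → Relation c m p) ∧
    ∀ (x : ℕ) (δ : ℝ), 0 < δ → ∃ ε : ℝ, 0 < ε ∧ ∃ T₀ : ℝ, 0 < T₀ ∧ ∀ c c' : Curve n,
      Concentrated (fun τ => Real.log (edgeAbs c.W τ) - Real.log (edgeAbs c'.W τ)) δ ε T₀ →
      ∀ p : ℕ, p.Prime → p < x → ∀ s : ℂ, factor c.W p s = factor c'.W p s := by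
  classical
  -- translation
  have hlf : ∀ (c : Curve n) v s, localFactor c.W v s =
      Pool.Agent.TH958.BV.localFactor (Pool.Agent.Y774.FP.BW c.W) v s := by
    intro c v s
    have h1 : (Nat.card {xy : (𝓞 c.K ⧸ v.asIdeal) × (𝓞 c.K ⧸ v.asIdeal) //
            ((c.W v).map (Ideal.Quotient.mk v.asIdeal)).toAffine.Equation xy.1 xy.2}) =
        Pool.Agent.TH339.MP.affc ((c.W v).map (Ideal.Quotient.mk v.asIdeal)) := by
      unfold Pool.Agent.TH339.MP.affc
      refine Nat.card_congr (Equiv.subtypeEquivRight fun q => ?_)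
      exact WeierstrassCurve.Affine.equation_iff ..
    have hn : Ideal.absNorm v.asIdeal ≠ 0 := (Pool.Agent.Y774.MD.nm_pos v).ne'
    unfold localFactor Pool.Agent.TH958.BV.localFactor
    rw [Pool.Agent.Y774.FP.BW_eval, h1, Pool.Agent.TH339.MP.cpow_two _ hn]
    unfold Pool.Agent.TH339.MP.av Pool.Agent.Y774.FP.ev Pool.Agent.TH339.MP.nm
      Pool.Agent.H921R2.TatePole.nm
    push_cast
    rfl
  have hfac : ∀ (c : Curve n) (p : ℕ), p.Prime → ∀ s, factor c.W p s =
      Pool.Agent.Y774.MD.fac (Pool.Agent.Y774.MD.GP (Pool.Agent.Y774.FP.BW c.W) 1) p (s - 1 / 2) := by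
    intro c p hp s
    rw [← Pool.Agent.Y774.FP.finprod_factor _ hp]
    unfold factor
    exact finprod_mem_congr rfl fun v _ => hlf c v s
  have hL : ∀ c : Curve n, LSeries c.W = Pool.Agent.TH958.BV.LFun (Pool.Agent.Y774.FP.BW c.W) := by
    intro c
    funext s
    exact tprod_congr fun v => hlf c v s
  have hpt : ∀ σ τ : ℝ, (3 / 2 + (σ : ℂ) + τ * Complex.I : ℂ) =
      (((1 : ℝ) / 2 : ℝ) : ℂ) + (1 + σ + τ * Complex.I) := by
    intro σ τ
    push_cast
    ring
  have hLQ : ∀ (c : Curve n) (τ σ : ℝ), 0 < σ → LSeries c.W (3 / 2 + σ + τ * Complex.I) =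
      Pool.Agent.Y774.MD.LQ (Pool.Agent.Y774.MD.GP (Pool.Agent.Y774.FP.BW c.W) 1)
        (1 + σ + τ * Complex.I) := by
    intro c τ σ hσ
    rw [hL, hpt, (Pool.Agent.Y774.FP.BW_tempered c.W).LFun_eq]
    simp [hσ]
  have hedge : ∀ (c : Curve n) (τ : ℝ), edgeAbs c.W τ =
      Pool.Agent.Y774.MD.eabs (Pool.Agent.Y774.MD.GP (Pool.Agent.Y774.FP.BW c.W) 1) τ := by
    intro c τ
    unfold edgeAbs Pool.Agent.Y774.MD.eabs limUnder
    congr 1
    refine Filter.map_congr ?_
    filter_upwards [self_mem_nhdsWithin] with σ hσ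
    rw [hLQ c τ σ hσ]
  have hadm : ∀ c : Curve n, Pool.Agent.Y774.FP.Adm n
      (Pool.Agent.Y774.MD.GP (Pool.Agent.Y774.FP.BW c.W) 1) := fun c =>
    ⟨c.K, c.field, c.numberField, c.W, c.degree, rfl⟩
  refine ⟨fun c => ?_, fun κ _ m x δ hδ => ?_, fun x δ hδ => ?_⟩
  · obtain ⟨C, hC⟩ := Pool.Agent.Y774.FP.adm_euler n
    filter_upwards [(hC _ (hadm c)).edge'] with τ hτ
    rw [hedge]
    refine ⟨hτ.1.1, hτ.1.2.congr' ?_⟩
    filter_upwards [self_mem_nhdsWithin] with σ hσ
    rw [hLQ c τ σ hσ]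
  · obtain ⟨ε, hε, T₀, hT₀, h⟩ := Pool.Agent.Y774.FP.precise n m x hδ
    refine ⟨ε, hε, T₀, hT₀, fun c ⟨a, T, y, hT, hvol⟩ p hp hpx s hs => ?_⟩
    have h1 := h p hp hpx (fun k => Pool.Agent.Y774.MD.GP (Pool.Agent.Y774.FP.BW (c k).W) 1)
      (fun k => hadm (c k)) a T y hT (by simpa only [form, hedge, Pool.Agent.Y774.FP.fm] using hvol)
    have h2 := Pool.Agent.Y774.FP.relation_of_HH hp (fun k => (hadm (c k)).good hp) h1
      (s := s - 1 / 2) (by
        rw [Complex.sub_re]
        norm_num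
        linarith)
    simp only [hfac _ p hp]
    exact h2
  · obtain ⟨ε, hε, T₀, hT₀, h⟩ := Pool.Agent.Y774.FP.precise n (κ := Bool)
      (fun b => if b then 1 else -1) x hδ
    refine ⟨ε, hε, T₀, hT₀, fun c c' ⟨a, T, y, hT, hvol⟩ p hp hpx s => ?_⟩
    have h1 := h p hp hpx (fun b => if b then Pool.Agent.Y774.MD.GP (Pool.Agent.Y774.FP.BW c.W) 1
      else Pool.Agent.Y774.MD.GP (Pool.Agent.Y774.FP.BW c'.W) 1)
      (fun b => by cases b <;> simp [hadm]) a T y hT (by
        refine hvol.trans (le_of_eq ?_)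
        congr 1
        ext τ
        simp only [Set.mem_ofPred_eq, hedge, Pool.Agent.Y774.FP.fm, Fintype.sum_bool, if_true,
          Bool.false_eq_true, if_false]
        ring_nf)
    have h2 : Pool.Agent.Y774.MD.GP (Pool.Agent.Y774.FP.BW c.W) 1 p =
        Pool.Agent.Y774.MD.GP (Pool.Agent.Y774.FP.BW c'.W) 1 p := by
      refine Pool.Agent.Y774.FP.poly_eq hp ((hadm c).good hp) ((hadm c').good hp) fun z hz => ?_
      have h3 := h1 z hz
      have h4 : Pool.Agent.Y774.MD.rot p 0 = 1 := by simp [Pool.Agent.Y774.MD.rot]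
      unfold Pool.Agent.Y774.MD.HH at h3
      simp only [Fintype.sum_bool, if_true, Bool.false_eq_true, if_false, h4, one_mul] at h3
      push_cast at h3
      linear_combination h3
    rw [hfac c p hp, hfac c' p hp]
    unfold Pool.Agent.Y774.MD.fac
    rw [h2]

end Pool.Agent.Results.MP_0d9be2_nt.FinitePrecision
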