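import Pool.Agent.Y693.RF.ThmB

/-!
# The base change of elliptic curves to random extensions of number fields

`F` is a number field of degree `d`, `E_k : y² = x³ + a_k x + b_k` are elliptic curves over `F`, and `f` is
a monic polynomial of degree `n` over `𝓞_F`.  For an integer `t` let `L = F(θ)` be the extension of
degree `n` of `F` generated by a root `θ` of `f + t` (for a given `f` it exists for all but
`O(X^{1/2} log X)` of the integers `|t| ≤ X`, by Hilbert's irreducibility theorem).  We study the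
`L`-functions of the curves `E_k` over the varying field `L`, that is the quotients
`L(E_k/L, s) / L(E_k/F, s)`, which are the `L`-functions of the twists of `E_k` by the representation
`Ind_L^F 1 - 1` of dimension `n - 1`, and the twists of these quotients by any system over `F`.  The centre
of the critical strip is `s = 1`, the Euler products converge for `Re s > 3/2`.  If the quotient is entire
and satisfies the Riemann hypothesis, then its partial Euler products over the primes of norm at most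
`y` and `x` are close to each other for all `x ≥ y` from a power of `log X` on, in every half-plane
`Re s ≥ 1 + δ`.  The theorem proves this up to a power of `X`, for all `t` outside a set of at most
`X^{1-c}` exceptions, for any `X^c` curves and systems, uniformly in all number fields `F` of degree `d`.
-/

set_option autoImplicit false

namespace Pool.Agent.Results.MP_0d9be2_nt.RandomBaseChange

open NumberField IsDedekindDomain

/-- `a_v = Nv - #{(x, y) : y² = x³ + a x + b}`, where `x`, `y` are in the residue field of `v`. -/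
noncomputable def trace {K : Type} [Field K] [NumberField K] (a b : 𝓞 K)
    (v : HeightOneSpectrum (𝓞 K)) : ℂ :=
  (Ideal.absNorm v.asIdeal : ℂ) - Nat.card {P : (𝓞 K ⧸ v.asIdeal) × (𝓞 K ⧸ v.asIdeal) //
    P.2 ^ 2 = P.1 ^ 3 + Ideal.Quotient.mk v.asIdeal a * P.1 + Ideal.Quotient.mk v.asIdeal b}

/-- The prime `v` does not divide `6 (4 a³ + 27 b²)`; then `y² = x³ + a x + b` has good reduction. -/
def IsGood {K : Type} [Field K] [NumberField K] (a b : 𝓞 K) (v : HeightOneSpectrum (𝓞 K)) : Prop :=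
  6 * (4 * a ^ 3 + 27 * b ^ 2) ∉ v.asIdeal

/-- The Euler factor at `v` of `L(E ⊗ M, s)` for `E : y² = x³ + a x + b` and a system `M` with the
eigenvalues `γ_{v,1}, …, γ_{v,N}`, that is
`∏_j (1 - a_v γ_{v,j} Nv^{-s} + γ_{v,j}² Nv^{1-2s})⁻¹`; for `N = 1` and `γ = 1` it is the Euler
factor of `L(E, s)`. -/
noncomputable def factor {K : Type} [Field K] [NumberField K] {N : ℕ} (a b : 𝓞 K)
    (γ : HeightOneSpectrum (𝓞 K) → Fin N → ℂ) (s : ℂ) (v : HeightOneSpectrum (𝓞 K)) : ℂ :=
  ∏ j, (1 - trace a b v * γ v j * (Ideal.absNorm v.asIdeal : ℂ) ^ (-s) +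
    γ v j ^ 2 * (Ideal.absNorm v.asIdeal : ℂ) ^ (1 - 2 * s))⁻¹

/-- `P_x(E ⊗ M, s)`: the product of the Euler factors at the good primes `v` with `Nv ≤ x`. -/
noncomputable def partialProduct {K : Type} [Field K] [NumberField K] {N : ℕ} (a b : 𝓞 K)
    (γ : HeightOneSpectrum (𝓞 K) → Fin N → ℂ) (s : ℂ) (x : ℕ) : ℂ :=
  ∏ᶠ v ∈ {v : HeightOneSpectrum (𝓞 K) | IsGood a b v ∧ Ideal.absNorm v.asIdeal ≤ x},
    factor a b γ s v

/-- `L(E ⊗ M, s)`: the product of the Euler factors at all good primes, for `Re s > 3/2`. -/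
noncomputable def LFun {K : Type} [Field K] [NumberField K] {N : ℕ} (a b : 𝓞 K)
    (γ : HeightOneSpectrum (𝓞 K) → Fin N → ℂ) (s : ℂ) : ℂ :=
  ∏' v : {v : HeightOneSpectrum (𝓞 K) // IsGood a b v}, factor a b γ s v

/-- The base change to `L` of a system `M` over `F` with the eigenvalues `γ_{v,j}`: at a prime `w` of
`L` above `v` its eigenvalues are `γ_{v,j} ^ f(w|v)`, where `f(w|v)` is the residue degree. -/
noncomputable def baseChange {F : Type} [Field F] [NumberField F] {N : ℕ} (L : Type) [Field L]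
    [NumberField L] [Algebra F L] (γ : Ideal (𝓞 F) → Fin N → ℂ) (w : HeightOneSpectrum (𝓞 L))
    (j : Fin N) : ℂ :=
  γ (w.asIdeal.comap (algebraMap (𝓞 F) (𝓞 L))) j ^
    Ideal.inertiaDeg' (w.asIdeal.comap (algebraMap (𝓞 F) (𝓞 L))) w.asIdeal

/-- `L = F(θ)` is an extension of `F` of degree `deg f`, and `θ` is a root of `f + t`. -/
def Generates {F : Type} [Field F] [NumberField F] {L : Type} [Field L] [NumberField L] [Algebra F L]
    (f : Polynomial (𝓞 F)) (t : ℤ) (θ : 𝓞 L) : Prop :=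
  Polynomial.aeval θ (f + Polynomial.C (t : 𝓞 F)) = 0 ∧ Module.finrank F L = f.natDegree ∧
    Algebra.adjoin F {(θ : L)} = ⊤

/-- All conjugates of all coefficients of `f` have absolute value at most `R`. -/
def HeightLE {F : Type} [Field F] [NumberField F] (R : ℝ) (f : Polynomial (𝓞 F)) : Prop :=
  ∀ i, ∀ σ : F →+* ℂ, ‖σ (f.coeff i : F)‖ ≤ R

/-- The quotient `Q_x(s) = P_x(E ⊗ M / L, s) / P_x(E ⊗ M / F, s)` of the partial Euler products over
`L` and over `F`, for a curve `E : y² = x³ + a x + b` over `F` and a system `M` over `F`. -/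
noncomputable def quotient {F : Type} [Field F] [NumberField F] {N : ℕ} (a b : 𝓞 F)
    (γ : Ideal (𝓞 F) → Fin N → ℂ) (L : Type) [Field L] [NumberField L] [Algebra F L] (s : ℂ)
    (x : ℕ) : ℂ :=
  partialProduct (algebraMap (𝓞 F) (𝓞 L) a) (algebraMap (𝓞 F) (𝓞 L) b) (baseChange L γ) s x /
    partialProduct a b (fun v : HeightOneSpectrum (𝓞 F) => γ v.asIdeal) s x

/-- In the critical strip: `|Q_x(s) / Q_y(s) - 1| ≤ y^{-c}` for all `s` with `Re s ≥ 1 + δ`,
`|Im s| ≤ X^c` and all `(log X)^{1/c} ≤ y ≤ x ≤ X^c`. -/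
def RegularStrip {F : Type} [Field F] [NumberField F] {N : ℕ} (δ c : ℝ) (X : ℕ) (a b : 𝓞 F)
    (γ : Ideal (𝓞 F) → Fin N → ℂ) (L : Type) [Field L] [NumberField L] [Algebra F L] : Prop :=
  ∀ s : ℂ, 1 + δ ≤ s.re → |s.im| ≤ (X : ℝ) ^ c → ∀ y x : ℕ, (Real.log X) ^ (1 / c) ≤ y → y ≤ x →
    (x : ℝ) ≤ (X : ℝ) ^ c →
      ‖quotient a b γ L s x / quotient a b γ L s y - 1‖ ≤ (y : ℝ) ^ (-c)

/-- At the edge: `|(L(E ⊗ M / L, s) / L(E ⊗ M / F, s)) / Q_y(s) - 1| ≤ η` for all `s` with
`Re s ≥ 3/2 + A / log X`, `|Im s| ≤ X^c` and all `y ≥ (log X)^{1/c}`. -/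
def RegularEdge {F : Type} [Field F] [NumberField F] {N : ℕ} (η A c : ℝ) (X : ℕ) (a b : 𝓞 F)
    (γ : Ideal (𝓞 F) → Fin N → ℂ) (L : Type) [Field L] [NumberField L] [Algebra F L] : Prop :=
  ∀ s : ℂ, 3 / 2 + A / Real.log X ≤ s.re → |s.im| ≤ (X : ℝ) ^ c → ∀ y : ℕ,
    (Real.log X) ^ (1 / c) ≤ y →
      ‖(LFun (algebraMap (𝓞 F) (𝓞 L) a) (algebraMap (𝓞 F) (𝓞 L) b) (baseChange L γ) s /
        LFun a b (fun v : HeightOneSpectrum (𝓞 F) => γ v.asIdeal) s) / quotient a b γ L s y - 1‖ ≤ η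

/-- **Base change of elliptic curves to random extensions.**  Let `d`, `n`, `N` be positive integers, `B`
real and `δ > 0`.  There is `c > 0`, and for every `η > 0` there are `A` and `X₀`, such that for all
`X ≥ X₀`, all number fields `F` of degree `d`, all monic polynomials `f` of degree `n` over `𝓞_F` whose
coefficients have conjugates of absolute value at most `exp((log X)^B)`, and any `m ≤ X^c` elliptic
curves `E_k : y² = x³ + a_k x + b_k` over `F` and systems `M_k` of rank `N` over `F`, the following holds for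
all integers `t` with `|t| ≤ X`, with at most `X^{1-c}` exceptions: for every extension `L = F(θ)` of `F` of
degree `n`, where `θ` is a root of `f + t`, and for all `k`, the quotients `Q_x(s)` of the partial Euler
products of `L(E_k ⊗ M_k / L, s)` and `L(E_k ⊗ M_k / F, s)` satisfy `|Q_x(s) / Q_y(s) - 1| ≤ y^{-c}` for
all `s` with `Re s ≥ 1 + δ`, `|Im s| ≤ X^c` and all `(log X)^{1/c} ≤ y ≤ x ≤ X^c`, and
`|(L(E_k ⊗ M_k / L, s) / L(E_k ⊗ M_k / F, s)) / Q_y(s) - 1| ≤ η` for all `s` with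
`Re s ≥ 3/2 + A / log X`, `|Im s| ≤ X^c` and all `y ≥ (log X)^{1/c}`.

The coefficients of the curves are not bounded, and only `|γ_{v,j}| ≤ 1` is used of the eigenvalues of
the systems. -/
theorem result (d n N : ℕ) (_ : 0 < n) (B δ : ℝ) (_ : 0 < δ) :
    ∃ c : ℝ, 0 < c ∧ ∀ η : ℝ, 0 < η → ∃ A : ℝ, ∃ X₀ : ℕ, ∀ X : ℕ, X₀ ≤ X →
      ∀ (F : Type) [Field F] [NumberField F], Module.finrank ℚ F = d →
      ∀ f : Polynomial (𝓞 F), f.Monic → f.natDegree = n → HeightLE (Real.exp ((Real.log X) ^ B)) f →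
      ∀ m : ℕ, (m : ℝ) ≤ (X : ℝ) ^ c → ∀ (a b : Fin m → 𝓞 F)
        (γ : Fin m → Ideal (𝓞 F) → Fin N → ℂ), (∀ k v j, ‖γ k v j‖ ≤ 1) →
        ({t : ℤ | |t| ≤ X ∧ ¬ ∀ (L : Type) [Field L] [NumberField L] [Algebra F L] (θ : 𝓞 L),
          Generates f t θ → ∀ k, RegularStrip δ c X (a k) (b k) (γ k) L ∧
            RegularEdge η A c X (a k) (b k) (γ k) L}.ncard : ℝ) ≤ (X : ℝ) ^ (1 - c) := by
  rename_i hn hδ
  obtain ⟨c, hc0, hc⟩ := Pool.Agent.Y693.RF.thmA d n N hn B δ hδ
  refine ⟨c, hc0, fun η hη => ?_⟩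
  obtain ⟨A, X₀, h⟩ := hc η hη
  refine ⟨A, X₀, fun X hX F _ _ hF f hf hfn hcoef m hm a b γ hγ => ?_⟩
  have h1 := h X hX F hF f hf hfn hcoef m hm a b γ hγ
  refine le_trans (le_of_eq ?_) h1
  congr 2
  ext t
  refine and_congr_right fun _ => not_congr ?_
  constructor
  · intro h2 L _ _ _ θ hθ
    exact h2 L θ ⟨hθ.root, by rw [hθ.deg, Polynomial.natDegree_add_C], hθ.top⟩
  · intro h2 L _ _ _ θ hθ
    exact h2 L θ ⟨hθ.1, by rw [hθ.2.1, Polynomial.natDegree_add_C], hθ.2.2⟩

end Pool.Agent.Results.MP_0d9be2_nt.RandomBaseChange
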