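import Pool.Agent.Y770.EP.Final

/-!
# Euler products of almost all elliptic curves over a number field, in the critical strip

`K` is any number field and `E_n : y² = x³ + a x + (b + n)`, `n ∈ ℤ`, a family of elliptic curves over
`K`, with `a, b ∈ 𝓞_K` arbitrary (the bounds do not depend on `a` and `b`, so that the theorem also
covers all curves in boxes of coefficients).  The Euler product `L(E_n, s)` converges for
`Re s > 3/2`; the centre of the critical strip is `s = 1`.  If `L(E_n, s)` continues and satisfies the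
Riemann hypothesis, then the partial Euler products over the primes of norm at most `x` are close to
each other for all `x` from a power of `log X` on, in every half-plane `Re s ≥ 1 + δ`.  The theorem
proves this for almost all `n`, up to a power of `X`, and simultaneously for the twists of `E_n` by any
`X^c` motives.
-/

set_option autoImplicit false

namespace Pool.Agent.Results.MP_0d9be2_nt.StripEulerProducts

open NumberField IsDedekindDomain

/-- `a_v = Nv - #{(x, y) : y² = x³ + a x + b}`, where `x`, `y` are in the residue field of `v`. -/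
noncomputable def trace {K : Type} [Field K] [NumberField K] (a b : 𝓞 K)
    (v : HeightOneSpectrum (𝓞 K)) : ℂ :=
  (Ideal.absNorm v.asIdeal : ℂ) - Nat.card {P : (𝓞 K ⧸ v.asIdeal) × (𝓞 K ⧸ v.asIdeal) //
    P.2 ^ 2 = P.1 ^ 3 + Ideal.Quotient.mk v.asIdeal a * P.1 + Ideal.Quotient.mk v.asIdeal b}

/-- The prime `v` does not divide `6 (4 a³ + 27 b²)`; then `y² = x³ + a x + b` has good reduction. -/
def IsGood {K : Type} [Field K] [NumberField K] (a b : 𝓞 K) (v : HeightOneSpectrum (𝓞 K)) : Prop :=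
  6 * (4 * a ^ 3 + 27 * b ^ 2) ∉ v.asIdeal

/-- The Euler factor at `v` of `L(E ⊗ M, s)` for `E : y² = x³ + a x + b` and a motive (or any system)
`M` with the normalised eigenvalues of Frobenius `γ_{v,1}, …, γ_{v,N}`, that is
`∏_j (1 - a_v γ_{v,j} Nv^{-s} + γ_{v,j}² Nv^{1-2s})⁻¹`. -/
noncomputable def factor {K : Type} [Field K] [NumberField K] {N : ℕ} (a b : 𝓞 K)
    (γ : HeightOneSpectrum (𝓞 K) → Fin N → ℂ) (s : ℂ) (v : HeightOneSpectrum (𝓞 K)) : ℂ :=
  ∏ j, (1 - trace a b v * γ v j * (Ideal.absNorm v.asIdeal : ℂ) ^ (-s) +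
    γ v j ^ 2 * (Ideal.absNorm v.asIdeal : ℂ) ^ (1 - 2 * s))⁻¹

/-- `P_x(E ⊗ M, s)`: the product of the Euler factors at the good primes `v` with `Nv ≤ x`. -/
noncomputable def partialProduct {K : Type} [Field K] [NumberField K] {N : ℕ} (a b : 𝓞 K)
    (γ : HeightOneSpectrum (𝓞 K) → Fin N → ℂ) (s : ℂ) (x : ℕ) : ℂ :=
  ∏ᶠ v ∈ {v : HeightOneSpectrum (𝓞 K) | IsGood a b v ∧ Ideal.absNorm v.asIdeal ≤ x},
    factor a b γ s v

/-- `L(E ⊗ M, s)`: the product of the Euler factors at all good primes, for `Re s > 3/2`. -/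
noncomputable def LFun {K : Type} [Field K] [NumberField K] {N : ℕ} (a b : 𝓞 K)
    (γ : HeightOneSpectrum (𝓞 K) → Fin N → ℂ) (s : ℂ) : ℂ :=
  ∏' v : {v : HeightOneSpectrum (𝓞 K) // IsGood a b v}, factor a b γ s v

/-- In the critical strip: `|P_x(s) / P_y(s) - 1| ≤ y^{-c}` for all `s` with `Re s ≥ 1 + δ`,
`|Im s| ≤ X^c` and all `(log X)^{1/c} ≤ y ≤ x ≤ X^c`. -/
def RegularStrip {K : Type} [Field K] [NumberField K] {N : ℕ} (δ c : ℝ) (X : ℕ) (a b : 𝓞 K)
    (γ : HeightOneSpectrum (𝓞 K) → Fin N → ℂ) : Prop :=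
  ∀ s : ℂ, 1 + δ ≤ s.re → |s.im| ≤ (X : ℝ) ^ c → ∀ y x : ℕ, (Real.log X) ^ (1 / c) ≤ y → y ≤ x →
    (x : ℝ) ≤ (X : ℝ) ^ c →
      ‖partialProduct a b γ s x / partialProduct a b γ s y - 1‖ ≤ (y : ℝ) ^ (-c)

/-- At the edge: `|L(s) / P_y(s) - 1| ≤ η` for all `s` with `Re s ≥ 3/2 + A / log X`,
`|Im s| ≤ X^c` and all `y ≥ (log X)^{1/c}`. -/
def RegularEdge {K : Type} [Field K] [NumberField K] {N : ℕ} (η A c : ℝ) (X : ℕ) (a b : 𝓞 K)
    (γ : HeightOneSpectrum (𝓞 K) → Fin N → ℂ) : Prop :=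
  ∀ s : ℂ, 3 / 2 + A / Real.log X ≤ s.re → |s.im| ≤ (X : ℝ) ^ c → ∀ y : ℕ,
    (Real.log X) ^ (1 / c) ≤ y → ‖LFun a b γ s / partialProduct a b γ s y - 1‖ ≤ η

/-- **Euler products of almost all elliptic curves over a number field, with all twists.**  Let `K` be
a number field, `N` a positive integer and `δ > 0`.  There is `c > 0`, and for every `η > 0` there are
`A` and `X₀`, such that for all `X ≥ X₀`, all `a, b ∈ 𝓞_K` and any `m ≤ X^c` motives `M_1, …, M_m` of rank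
`N` over `K` the following holds for all integers `n` with `|n| ≤ X`, with at most `X^{1-c}` exceptions:
for all `k`, the partial products of `L(E_n ⊗ M_k, s)` for the curve `E_n : y² = x³ + a x + b + n`
satisfy `|P_x(s) / P_y(s) - 1| ≤ y^{-c}` for all `s` with `Re s ≥ 1 + δ`, `|Im s| ≤ X^c` and all
`(log X)^{1/c} ≤ y ≤ x ≤ X^c`, and `|L(s) / P_y(s) - 1| ≤ η` for all `s` with `Re s ≥ 3/2 + A / log X`,
`|Im s| ≤ X^c` and all `y ≥ (log X)^{1/c}`.

Only `|γ_{v,j}| ≤ 1` is used of the eigenvalues of the motives. -/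
theorem result (K : Type) [Field K] [NumberField K] (N : ℕ) (δ : ℝ) (_ : 0 < δ) :
    ∃ c : ℝ, 0 < c ∧ ∀ η : ℝ, 0 < η → ∃ A : ℝ, ∃ X₀ : ℕ, ∀ X : ℕ, X₀ ≤ X → ∀ a b : 𝓞 K, ∀ m : ℕ,
      (m : ℝ) ≤ (X : ℝ) ^ c → ∀ γ : Fin m → HeightOneSpectrum (𝓞 K) → Fin N → ℂ,
        (∀ k v j, ‖γ k v j‖ ≤ 1) →
        ({n : ℤ | |n| ≤ X ∧ ¬ ∀ k, RegularStrip δ c X a (b + (n : 𝓞 K)) (γ k) ∧
          RegularEdge η A c X a (b + (n : 𝓞 K)) (γ k)}.ncard : ℝ) ≤ (X : ℝ) ^ (1 - c) := by
  rename_i hδ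
  exact Pool.Agent.Y770.EP.final K N δ hδ

end Pool.Agent.Results.MP_0d9be2_nt.StripEulerProducts
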